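import Pool.Agent.H61R3.KD4

/-! # Limits of marked groups and kernel dimensions: definitions -/

set_option autoImplicit false

open scoped ENNReal InnerProductSpace
open Filter Topology

noncomputable section

namespace Pool.Agent.L0h7.UL

open H61R3NG

/-- the von Neumann dimension of the kernel of left convolution by `α` on `ℓ²(G)` -/
def kdim {G : Type} [Group G] (α : MonoidAlgebra ℂ G) : ℝ :=
  kd (LinearMap.ker (Top G α : E2 G →ₗ[ℂ] E2 G))

/-- the adjoint: `(st α)(g) = conj (α(g⁻¹))` -/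
def st {G : Type} [Group G] (α : MonoidAlgebra ℂ G) : MonoidAlgebra ℂ G :=
  ∑ x ∈ α.coeff.support, MonoidAlgebra.single x⁻¹ ((starRingEnd ℂ) (α.coeff x))

/-- `1 - α* α / R` -/
def Dm {G : Type} [Group G] (R : ℝ) (α : MonoidAlgebra ℂ G) : MonoidAlgebra ℂ G :=
  1 - ((1 / R : ℝ) : ℂ) • (st α * α)

/-- the mean of the traces of the even powers of `1 - α* α / R` -/
def sg {G : Type} [Group G] (R : ℝ) (N : ℕ) (α : MonoidAlgebra ℂ G) : ℝ :=
  (N : ℝ)⁻¹ * ∑ j ∈ Finset.range N, (((Dm R α) ^ (2 * j)).coeff 1).re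

/-- the element `∑ a_i t_i` -/
def el {G : Type} [Group G] {n : ℕ} (t : Fin n → G) (a : Fin n → ℂ) : MonoidAlgebra ℂ G :=
  ∑ i, MonoidAlgebra.single (t i) (a i)

/-- the sum of the absolute values of the coefficients -/
def nm {G : Type} [Group G] (α : MonoidAlgebra ℂ G) : ℝ := ∑ x ∈ α.coeff.support, ‖α.coeff x‖

/-- `G` is torsion-free -/
def TF (G : Type) [Group G] : Prop := ∀ g : G, ∀ k : ℕ, 0 < k → g ^ k = 1 → g = 1

/-- No product of at most `L` elements of `T` and their inverses is a nontrivial element of order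
at most `L`. -/
def NoTors {G : Type} [Group G] (T : Finset G) (L : ℕ) : Prop :=
  ∀ l : List G, l.length ≤ L → (∀ x ∈ l, x ∈ T ∨ x⁻¹ ∈ T) →
    ∀ k : ℕ, 0 < k → k ≤ L → l.prod ^ k = 1 → l.prod = 1

/-- `G` is locally embeddable into finite groups -/
def LEF (G : Type) [Group G] : Prop :=
  ∀ E : Finset G, ∃ (Q : Type) (_ : Group Q) (_ : Finite Q) (f : G → Q),
    (∀ x ∈ E, ∀ y ∈ E, f (x * y) = f x * f y) ∧ ∀ x ∈ E, ∀ y ∈ E, f x = f y → x = y

/-- all coefficients are integers -/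
def IsInt {G : Type} [Group G] (α : MonoidAlgebra ℂ G) : Prop :=
  ∀ x : G, ∃ z : ℤ, α.coeff x = z

end Pool.Agent.L0h7.UL
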