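import Pool.Agent.L0h8.UL.SIG
import Pool.Agent.L0h8.UL.FORM
import Pool.Agent.L0h9.UL.LIM
import Pool.Agent.L0h92.UL.SEQ
import Pool.Agent.L0h69.UL.LUE
import Pool.Agent.L0h69.UL.FIN

/-! # The two equivalences -/

set_option autoImplicit false

open scoped ENNReal InnerProductSpace
open Filter Topology

noncomputable section

namespace Pool.Agent.L0h7.UL

open H61R3NG

theorem kdim_nonneg {G : Type} [Group G] (α : MonoidAlgebra ℂ G) : 0 ≤ kdim α := by
  unfold kdim kd
  positivity

theorem noTors_of_TF {G : Type} [Group G] (hG : TF G) (T : Finset G) (L : ℕ) : NoTors T L :=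
  fun _ _ _ _ hk _ h => hG _ _ hk h

theorem t_UNI (hS : S_SEQ) : S_UNI := by
  constructor
  · intro h n ε hε
    by_contra hcon
    push Not at hcon
    choose G hG α h0 hc hN hk using hcon
    obtain ⟨G', hG', α', hTF, hα', hle, -⟩ := hS n ε G α h0 hc hN (fun k => (hk k).le)
    have := h G' hTF α' hα'
    linarith
  · intro h G _ hG α hα
    refine le_antisymm (le_of_forall_pos_le_add fun ε hε => ?_) (kdim_nonneg α)
    obtain ⟨L, hL⟩ := h α.coeff.support.card ε hε
    rw [zero_add]
    exact hL G α hα le_rfl (noTors_of_TF hG _ _)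

theorem t_UNF (hS : S_SEQ) (hL : S_LEFA) : S_UNF := by
  constructor
  · intro h n M ε hε
    by_contra hcon
    push Not at hcon
    choose G hG hF α h0 hc hI hM hN hk using hcon
    obtain ⟨G', hG', α', hTF, hα', hle, hLEF, hint⟩ := hS n ε G α h0 hc hN (fun k => (hk k).le)
    have := h G' hTF (hLEF hF) α' hα' (hint M fun k => ⟨hI k, hM k⟩)
    linarith
  · intro h G _ hG hLEF α hα hI
    refine le_antisymm (le_of_forall_pos_le_add fun ε hε => ?_) (kdim_nonneg α)
    obtain ⟨L, hL'⟩ := h α.coeff.support.card (nm α) (ε / 2) (by positivity)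
    rw [zero_add]
    have h1 := hL G hG hLEF α hα hI (ε / 2) L (by positivity) (fun Q _ _ β hβ hβI hβn hβc hβN =>
      hL' Q β hβ hβc hβI hβn hβN)
    linarith

end Pool.Agent.L0h7.UL
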