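import Pool.Agent.L0h7.UL.Defs

/-! # The kernel dimension vanishes only for regular elements -/

set_option autoImplicit false

open scoped ENNReal InnerProductSpace
open Filter Topology

noncomputable section

namespace Pool.Agent.L0h7.UL

open H61R3NG

theorem kdim_eq_zero_iff {G : Type} [Group G] (α : MonoidAlgebra ℂ G) :
    kdim α = 0 ↔ ∀ f : G → ℂ, Memℓp f 2 → f ≠ 0 →
      ∃ g : G, ∑ k ∈ α.coeff.support, α.coeff k * f (k⁻¹ * g) ≠ 0 := by
  have hinv : RInv (LinearMap.ker (Top G α : E2 G →ₗ[ℂ] E2 G)) := RInv_ker (Com_Top α)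
  constructor
  · intro h f hf hf0
    by_contra hcon
    push Not at hcon
    set F : E2 G := ⟨f, hf⟩ with hF
    have hmem : F ∈ LinearMap.ker (Top G α : E2 G →ₗ[ℂ] E2 G) := by
      rw [LinearMap.mem_ker]
      apply lp.ext
      funext g
      change Top G α F g = _
      rw [Top_apply_apply]
      exact hcon g
    have hxi : xi (LinearMap.ker (Top G α : E2 G →ₗ[ℂ] E2 G)) = 0 := by
      unfold kdim kd at h
      have : ‖xi (LinearMap.ker (Top G α : E2 G →ₗ[ℂ] E2 G))‖ = 0 := by
        exact pow_eq_zero_iff (two_ne_zero) |>.1 h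
      exact norm_eq_zero.1 this
    apply hf0
    funext g
    have h1 := proj_apply hinv F g
    rw [Submodule.starProjection_eq_self_iff.2 hmem, hxi, map_zero, inner_zero_left] at h1
    exact h1
  · intro h
    have hbot : LinearMap.ker (Top G α : E2 G →ₗ[ℂ] E2 G) = ⊥ := by
      rw [eq_bot_iff]
      intro F hF
      rw [Submodule.mem_bot]
      by_contra hne
      obtain ⟨g, hg⟩ := h (fun x => F x) (lp.memℓp F) (by
        intro h0
        apply hne
        apply lp.ext
        exact h0)
      apply hg
      rw [← Top_apply_apply]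
      have : Top G α F = 0 := hF
      rw [this]
      rfl
    unfold kdim kd xi
    have : (LinearMap.ker (Top G α : E2 G →ₗ[ℂ] E2 G)).starProjection (dl (1 : G)) = 0 := by
      rw [Submodule.starProjection_apply_eq_zero_iff, hbot]
      simp
    rw [this]
    simp

end Pool.Agent.L0h7.UL
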