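import Pool.Agent.L0h7.UL.Defs

/-! # Limits of marked groups and kernel dimensions: statements of the modules -/

set_option autoImplicit false

open scoped ENNReal InnerProductSpace
open Filter Topology

noncomputable section

namespace Pool.Agent.L0h7.UL

open H61R3NG

/-- SIG -/
def S_SIG : Prop :=
  ∀ (G : Type) [Group G] (α : MonoidAlgebra ℂ G) (R : ℝ), 0 < R → nm α ^ 2 ≤ R →
    (∀ N : ℕ, 0 < N → kdim α ≤ sg R N α) ∧ Tendsto (fun N => sg R N α) atTop (𝓝 (kdim α))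

/-- FORM -/
def S_FORM : Prop :=
  ∀ (n : ℕ) (R : ℝ) (N : ℕ), ∃ (W : Finset (FreeGroup (Fin n)))
    (c : FreeGroup (Fin n) → (Fin n → ℂ) → ℝ), (∀ w, Continuous (c w)) ∧
    ∀ (G : Type) [Group G] (t : Fin n → G) (a : Fin n → ℂ), sg R N (el t a) =
      ∑ w ∈ W, open Classical in if FreeGroup.lift t w = 1 then c w a else 0

/-- LIM: upper semicontinuity along ultrafilters -/
def S_LIM : Prop :=
  ∀ (n : ℕ) (u : Ultrafilter ℕ) (G : ℕ → Type) [∀ k, Group (G k)] (t : ∀ k, Fin n → G k)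
    (a : ℕ → Fin n → ℂ) (G' : Type) [Group G'] (t' : Fin n → G') (a' : Fin n → ℂ) (B : ℝ),
    (∀ k i, ‖a k i‖ ≤ B) → (∀ i, Tendsto (fun k => a k i) u (𝓝 (a' i))) →
    (∀ w : FreeGroup (Fin n), FreeGroup.lift t' w = 1 ↔ ∀ᶠ k in (u : Filter ℕ), FreeGroup.lift (t k) w = 1) →
    ∀ ε : ℝ, (∀ᶠ k in (u : Filter ℕ), ε ≤ kdim (el (t k) (a k))) → ε ≤ kdim (el t' a')

/-- SEQ: the limit of a sequence of counterexamples to a uniform bound -/
def S_SEQ : Prop :=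
  ∀ (n : ℕ) (ε : ℝ) (G : ℕ → Type) [∀ k, Group (G k)] (α : ∀ k, MonoidAlgebra ℂ (G k)),
    (∀ k, α k ≠ 0) → (∀ k, (α k).coeff.support.card ≤ n) →
    (∀ k, NoTors (α k).coeff.support k) → (∀ k, ε ≤ kdim (α k)) →
    ∃ (G' : Type) (_ : Group G') (α' : MonoidAlgebra ℂ G'), TF G' ∧ α' ≠ 0 ∧ ε ≤ kdim α' ∧
      ((∀ k, Finite (G k)) → LEF G') ∧
      ∀ M : ℝ, (∀ k, IsInt (α k) ∧ ∀ x, ‖(α k).coeff x‖ ≤ M) → IsInt α'

/-- LUE: Lück's estimate for finite groups -/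
def S_LUE : Prop :=
  ∀ (Q : Type) [Group Q] [Finite Q] (α : MonoidAlgebra ℂ Q) (R : ℝ), 1 ≤ R → nm α ^ 2 ≤ R →
    IsInt α → ∀ (N : ℕ) (l : ℝ), 0 < N → 0 < l → l < 1 →
    sg R N α ≤ kdim α + Real.log R / Real.log (1 / l) + R / (N * l)

/-- FIN: the kernel dimension for a finite group -/
def S_FIN : Prop :=
  ∀ (Q : Type) [Group Q] [Finite Q] (α : MonoidAlgebra ℂ Q),
    kdim α * Nat.card Q = Module.finrank ℂ (LinearMap.ker (LinearMap.mulLeft ℂ α))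

/-- LEFA: approximation of a group which is locally embeddable into finite groups -/
def S_LEFA : Prop :=
  ∀ (G : Type) [Group G], TF G → LEF G → ∀ (α : MonoidAlgebra ℂ G), α ≠ 0 → IsInt α →
    ∀ (ε : ℝ) (L : ℕ), 0 < ε → (∀ (Q : Type) [Group Q] [Finite Q] (β : MonoidAlgebra ℂ Q),
      β ≠ 0 → IsInt β → (∀ x, ‖β.coeff x‖ ≤ nm α) → β.coeff.support.card ≤ α.coeff.support.card →
      NoTors β.coeff.support L → kdim β ≤ ε) → kdim α ≤ 2 * ε

/-- UNI: the analytic zero divisor conjecture is equivalent to uniform estimates -/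
def S_UNI : Prop :=
  (∀ (G : Type) [Group G], TF G → ∀ α : MonoidAlgebra ℂ G, α ≠ 0 → kdim α = 0) ↔
  ∀ (n : ℕ) (ε : ℝ), 0 < ε → ∃ L : ℕ, ∀ (G : Type) [Group G] (α : MonoidAlgebra ℂ G), α ≠ 0 →
    α.coeff.support.card ≤ n → NoTors α.coeff.support L → kdim α ≤ ε

/-- UNF: for LEF groups and integral coefficients it is equivalent to estimates for finite groups -/
def S_UNF : Prop :=
  (∀ (G : Type) [Group G], TF G → LEF G → ∀ α : MonoidAlgebra ℂ G, α ≠ 0 → IsInt α →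
    kdim α = 0) ↔
  ∀ (n : ℕ) (M ε : ℝ), 0 < ε → ∃ L : ℕ, ∀ (Q : Type) [Group Q] [Finite Q]
    (α : MonoidAlgebra ℂ Q), α ≠ 0 → α.coeff.support.card ≤ n → IsInt α →
    (∀ x, ‖α.coeff x‖ ≤ M) → NoTors α.coeff.support L → kdim α ≤ ε

end Pool.Agent.L0h7.UL
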